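import Pool.Agent.Helper9.TN.Basic
import Pool.Agent.Helper28.TN.RoughSum

/-!
# CV-1: the weight `om` (concentration of the common values of `φ n = φ (n + 1)`)

`om L m` is the product of `p / L` over the prime factors `p > L` of `m`, with multiplicity.
-/

set_option autoImplicit false

open Finset
open scoped Nat

namespace Pool.Agent.Helper99.CV

open Pool.Agent.TN

/-- The product of `p / L` over the prime factors `p > L` of `m`, with multiplicity. -/
noncomputable def om (L m : ℕ) : ℝ :=
  ((m.primeFactorsList.filter (fun p => decide (L < p))).map (fun p : ℕ => (p : ℝ) / L)).prod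

theorem om_one (L : ℕ) : om L 1 = 1 := by simp [om]

theorem om_mul {L a b : ℕ} (ha : a ≠ 0) (hb : b ≠ 0) : om L (a * b) = om L a * om L b := by
  unfold om
  have h := ((Nat.perm_primeFactorsList_mul ha hb).filter (fun p => decide (L < p))).map
    (fun p : ℕ => (p : ℝ) / L)
  rw [h.prod_eq, List.filter_append, List.map_append, List.prod_append]

theorem om_prime {L p : ℕ} (hp : p.Prime) : om L p = if L < p then (p : ℝ) / L else 1 := by
  unfold om
  rw [Nat.primeFactorsList_prime hp]
  by_cases h : L < p
  · simp [h]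
  · simp [h]

theorem one_le_om_prime {L p : ℕ} (hL : 1 ≤ L) (hp : p.Prime) : 1 ≤ om L p := by
  have hL0 : (0 : ℝ) < L := by exact_mod_cast hL
  rw [om_prime hp]
  split_ifs with h
  · rw [one_le_div hL0]
    exact_mod_cast h.le
  · exact le_rfl

theorem om_prime_le {L p : ℕ} (hL : 1 ≤ L) (hp : p.Prime) : om L p ≤ p := by
  have hL0 : (1 : ℝ) ≤ L := by exact_mod_cast hL
  rw [om_prime hp]
  split_ifs with h
  · exact div_le_self (Nat.cast_nonneg _) hL0
  · exact_mod_cast hp.one_le

theorem one_le_om {L : ℕ} (hL : 1 ≤ L) {m : ℕ} (hm : m ≠ 0) : 1 ≤ om L m := by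
  induction m using induction_on_primes with
  | zero => exact absurd rfl hm
  | one => rw [om_one]
  | prime_mul p a hp ih =>
    have ha : a ≠ 0 := right_ne_zero_of_mul hm
    rw [om_mul hp.ne_zero ha]
    exact one_le_mul_of_one_le_of_one_le (one_le_om_prime hL hp) (ih ha)

theorem om_pos {L : ℕ} (hL : 1 ≤ L) {m : ℕ} (hm : m ≠ 0) : 0 < om L m :=
  lt_of_lt_of_le one_pos (one_le_om hL hm)

theorem om_le {L : ℕ} (hL : 1 ≤ L) {m : ℕ} (hm : m ≠ 0) : om L m ≤ m := by
  induction m using induction_on_primes with
  | zero => exact absurd rfl hm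
  | one => rw [om_one]; norm_num
  | prime_mul p a hp ih =>
    have ha : a ≠ 0 := right_ne_zero_of_mul hm
    rw [om_mul hp.ne_zero ha, Nat.cast_mul]
    exact mul_le_mul (om_prime_le hL hp) (ih ha) (om_pos hL ha).le (Nat.cast_nonneg _)

theorem om_mono {L : ℕ} (hL : 1 ≤ L) {a b : ℕ} (hab : a ∣ b) (hb : b ≠ 0) : om L a ≤ om L b := by
  obtain ⟨c, rfl⟩ := hab
  have ha : a ≠ 0 := left_ne_zero_of_mul hb
  have hc : c ≠ 0 := right_ne_zero_of_mul hb
  rw [om_mul ha hc]
  have h1 := one_le_om hL hc
  have h2 := om_pos hL ha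
  nlinarith

theorem om_smooth {L m : ℕ} (hm : m ≠ 0) (h : ∀ p, p.Prime → p ∣ m → p ≤ L) : om L m = 1 := by
  induction m using induction_on_primes with
  | zero => exact absurd rfl hm
  | one => exact om_one L
  | prime_mul p a hp ih =>
    have ha : a ≠ 0 := right_ne_zero_of_mul hm
    rw [om_mul hp.ne_zero ha, ih ha fun q hq hqa => h q hq (hqa.mul_left p), om_prime hp,
      if_neg (not_lt.2 (h p hp (dvd_mul_right p a))), mul_one]

theorem om_ro {L m : ℕ} (hm : m ≠ 0) : om L (ro L m) = om L m := by
  have h1 := om_mul (L := L) (sm_pos L m).ne' (ro_pos L m).ne'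
  rw [sm_mul_ro hm, om_smooth (sm_pos L m).ne' fun p hp hpd => le_of_dvd_sm hp hpd, one_mul] at h1
  exact h1.symm

theorem om_rough {L e : ℕ} (he : e ≠ 0) (h : ∀ p, p.Prime → p ∣ e → L < p) :
    om L e = e * ((L : ℝ)⁻¹) ^ e.primeFactorsList.length := by
  induction e using induction_on_primes with
  | zero => exact absurd rfl he
  | one => simp [om_one]
  | prime_mul p a hp ih =>
    have ha : a ≠ 0 := right_ne_zero_of_mul he
    rw [om_mul hp.ne_zero ha, ih ha fun q hq hqa => h q hq (hqa.mul_left p), om_prime hp,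
      if_pos (h p hp (dvd_mul_right p a)), length_pfl_mul_prime hp ha, pow_succ]
    push_cast
    ring

/-- The sum of `t ^ Ω(e)` over the divisors. -/
theorem sum_divisors_pow {t : ℝ} (ht : 0 ≤ t) {v : ℕ} (hv : v ≠ 0) :
    ∑ e ∈ v.divisors, t ^ e.primeFactorsList.length ≤
      Real.exp (v.primeFactorsList.length * t) := by
  revert hv
  induction v using induction_on_primes with
  | zero => intro hv; exact absurd rfl hv
  | one =>
    intro _
    simp
  | prime_mul p a hp ih =>
    intro hv
    have ha : a ≠ 0 := right_ne_zero_of_mul hv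
    have ih' := ih ha
    have hsub : (p * a).divisors ⊆ a.divisors ∪ a.divisors.image (fun e => p * e) := by
      intro d hd
      rw [Nat.mem_divisors] at hd
      rw [Finset.mem_union, Finset.mem_image, Nat.mem_divisors]
      by_cases hpd : p ∣ d
      · right
        obtain ⟨e, rfl⟩ := hpd
        exact ⟨e, Nat.mem_divisors.2 ⟨Nat.dvd_of_mul_dvd_mul_left hp.pos hd.1, ha⟩, rfl⟩
      · left
        refine ⟨?_, ha⟩
        have hc : Nat.Coprime d p := ((Nat.Prime.coprime_iff_not_dvd hp).2 hpd).symm
        exact hc.dvd_of_dvd_mul_left hd.1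
    have hnn : ∀ e : ℕ, (0 : ℝ) ≤ t ^ e.primeFactorsList.length := fun e => pow_nonneg ht _
    have h1 : ∑ e ∈ (p * a).divisors, t ^ e.primeFactorsList.length ≤
        (∑ e ∈ a.divisors, t ^ e.primeFactorsList.length) * (1 + t) := by
      calc ∑ e ∈ (p * a).divisors, t ^ e.primeFactorsList.length
          ≤ ∑ e ∈ a.divisors ∪ a.divisors.image (fun e => p * e), t ^ e.primeFactorsList.length :=
            Finset.sum_le_sum_of_subset_of_nonneg hsub (fun _ _ _ => hnn _)
        _ ≤ ∑ e ∈ a.divisors, t ^ e.primeFactorsList.length +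
            ∑ e ∈ a.divisors.image (fun e => p * e), t ^ e.primeFactorsList.length := by
            rw [← Finset.sum_union_inter]
            have : (0 : ℝ) ≤ ∑ e ∈ a.divisors ∩ a.divisors.image (fun e => p * e),
              t ^ e.primeFactorsList.length := Finset.sum_nonneg (fun _ _ => hnn _)
            linarith
        _ = ∑ e ∈ a.divisors, t ^ e.primeFactorsList.length +
            ∑ e ∈ a.divisors, t * t ^ e.primeFactorsList.length := by
            congr 1
            rw [Finset.sum_image (fun x _ y _ hxy => Nat.eq_of_mul_eq_mul_left hp.pos hxy)]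
            refine Finset.sum_congr rfl (fun e he => ?_)
            rw [length_pfl_mul_prime hp (Nat.pos_of_mem_divisors he).ne', pow_succ]
            ring
        _ = _ := by
            rw [← Finset.mul_sum]
            ring
    have h2 : 1 + t ≤ Real.exp t := by
      have h4 := Real.add_one_le_exp t
      linarith
    calc ∑ e ∈ (p * a).divisors, t ^ e.primeFactorsList.length
        ≤ (∑ e ∈ a.divisors, t ^ e.primeFactorsList.length) * (1 + t) := h1
      _ ≤ Real.exp (a.primeFactorsList.length * t) * Real.exp t :=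
          mul_le_mul ih' h2 (by linarith) (Real.exp_pos _).le
      _ = Real.exp ((p * a).primeFactorsList.length * t) := by
          rw [← Real.exp_add, length_pfl_mul_prime hp ha]
          congr 1
          push_cast
          ring

/-- The sum over the divisors of a rough number. -/
theorem sum_om_div_totient {L V : ℕ} (hL : 1 ≤ L) (hV : V ≠ 0)
    (h : ∀ p, p.Prime → p ∣ V → L < p) (hlen : (V.primeFactorsList.length : ℝ) ≤ 4 * L) :
    ∑ e ∈ V.divisors, om L e / φ e ≤ Real.exp 8 := by
  have hL0 : (0 : ℝ) < L := by exact_mod_cast hL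
  have h1 : ∀ e ∈ V.divisors, om L e / φ e ≤
      Real.exp 4 * ((L : ℝ)⁻¹) ^ e.primeFactorsList.length := by
    intro e he
    have hed := Nat.dvd_of_mem_divisors he
    have he0 : e ≠ 0 := (Nat.pos_of_mem_divisors he).ne'
    have her : ∀ p, p.Prime → p ∣ e → L < p := fun p hp hpe => h p hp (hpe.trans hed)
    have h2 := div_totient_rough (y := L) he0 her hL
    have hlen' : (e.primeFactorsList.length : ℝ) ≤ 4 * L := by
      refine le_trans ?_ hlen
      have := (Nat.primeFactorsList_sublist_of_dvd hed hV).length_le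
      exact_mod_cast this
    have h3 : (e : ℝ) / φ e ≤ Real.exp 4 := by
      refine h2.trans (Real.exp_le_exp.2 ?_)
      rw [div_le_iff₀ hL0]
      exact hlen'
    rw [om_rough he0 her]
    calc (e : ℝ) * ((L : ℝ)⁻¹) ^ e.primeFactorsList.length / φ e
        = (e : ℝ) / φ e * ((L : ℝ)⁻¹) ^ e.primeFactorsList.length := by ring
      _ ≤ _ := mul_le_mul_of_nonneg_right h3 (by positivity)
  refine (Finset.sum_le_sum h1).trans ?_
  rw [← Finset.mul_sum]
  have h2 := sum_divisors_pow (t := (L : ℝ)⁻¹) (by positivity) hV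
  have h3 : (V.primeFactorsList.length : ℝ) * (L : ℝ)⁻¹ ≤ 4 := by
    rw [← div_eq_mul_inv, div_le_iff₀ hL0]
    exact hlen
  calc Real.exp 4 * ∑ e ∈ V.divisors, ((L : ℝ)⁻¹) ^ e.primeFactorsList.length
      ≤ Real.exp 4 * Real.exp 4 := by
        refine mul_le_mul_of_nonneg_left ?_ (Real.exp_pos 4).le
        exact h2.trans (Real.exp_le_exp.2 h3)
    _ = Real.exp 8 := by rw [← Real.exp_add]; norm_num

end Pool.Agent.Helper99.CV
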