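import Pool.Agent.Helper9.TN.Cover
import Pool.Agent.Helper99.CV.Weight

/-!
# CV-3: the cover
-/

set_option autoImplicit false

open Finset
open scoped Nat

namespace Pool.Agent.Helper99.CV

open Pool.Agent.TN

/-- The selection lemma for a real valued function. -/
theorem exists_dvd_select_real (c : ℕ) (hc : 1 ≤ c) (G : ℕ → ℝ) (hG1 : ∀ a, 1 ≤ G a)
    (hG : ∀ a b, Squarefree (a * b) → G (a * b) ≤ G a * G b) (K m : ℕ) (hK : 1 ≤ K)
    (hm : Squarefree m) (hmc : m ≤ c ^ K) :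
    ∃ a, a ∣ m ∧ (a.Prime ∨ a ≤ c ^ 2) ∧ G m ≤ G a ^ K := by
  induction K, hK using Nat.le_induction generalizing m with
  | base =>
    refine ⟨m, dvd_rfl, Or.inr ?_, by simp⟩
    rw [pow_one] at hmc
    nlinarith
  | succ K hK ih =>
    rcases Nat.lt_or_ge (c ^ 2) m with h | h
    · obtain ⟨a1, ha1, hca1, hor⟩ : ∃ a, a ∣ m ∧ c < a ∧ (a.Prime ∨ a ≤ c ^ 2) := by
        by_cases hp : ∀ p, p.Prime → p ∣ m → p ≤ c
        · obtain ⟨a, h1, h2, h3⟩ := exists_dvd_between c hc m hp h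
          exact ⟨a, h1, h2, Or.inr h3⟩
        · push Not at hp
          obtain ⟨p, hp1, hp2, hp3⟩ := hp
          exact ⟨p, hp2, hp3, Or.inl hp1⟩
      obtain ⟨m', hm'⟩ := ha1
      have hsq : Squarefree (a1 * m') := hm' ▸ hm
      have hm'c : m' ≤ c ^ K := by
        by_contra hcon
        push Not at hcon
        have : c ^ (K + 1) < m := by
          rw [hm', pow_succ, mul_comm]
          exact Nat.mul_lt_mul'' hca1 hcon
        omega
      obtain ⟨a2, h1, h2, h3⟩ := ih m' (hsq.squarefree_of_dvd (Dvd.intro_left a1 rfl)) hm'c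
      have g1 := hG1 a1
      have g2 := hG1 a2
      have hGm : G m ≤ G a1 * G a2 ^ K := by
        rw [hm']
        exact (hG a1 m' hsq).trans (mul_le_mul_of_nonneg_left h3 (by linarith))
      rcases le_total (G a1) (G a2) with h4 | h4
      · refine ⟨a2, h1.trans (Dvd.intro_left a1 hm'.symm), h2, hGm.trans ?_⟩
        rw [pow_succ, mul_comm (G a2 ^ K)]
        exact mul_le_mul_of_nonneg_right h4 (pow_nonneg (by linarith) _)
      · refine ⟨a1, Dvd.intro m' hm'.symm, hor, hGm.trans ?_⟩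
        rw [pow_succ, mul_comm (G a1 ^ K)]
        exact mul_le_mul_of_nonneg_left (pow_le_pow_left₀ (by linarith) h4 K) (by linarith)
    · refine ⟨m, dvd_rfl, Or.inr h, ?_⟩
      calc G m = G m ^ 1 := (pow_one _).symm
        _ ≤ G m ^ (K + 1) := pow_le_pow_right₀ (hG1 m) (by omega)

theorem gcd_U_ne {a v : ℕ} : Nat.gcd (U a) v ≠ 0 := (Nat.gcd_pos_of_pos_left _ (U_pos a)).ne'

theorem om_gcd_U_mul_le {L : ℕ} (hL : 1 ≤ L) (v : ℕ) (a b : ℕ) (h : Squarefree (a * b)) :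
    om L (Nat.gcd (U (a * b)) v) ≤ om L (Nat.gcd (U a) v) * om L (Nat.gcd (U b) v) := by
  rw [U_mul (Nat.coprime_of_squarefree_mul h), ← om_mul gcd_U_ne gcd_U_ne]
  apply om_mono hL _ (mul_ne_zero gcd_U_ne gcd_U_ne)
  rw [Nat.gcd_comm (U a * U b), Nat.gcd_comm (U a), Nat.gcd_comm (U b)]
  exact Nat.gcd_mul_right_dvd_mul_gcd v (U a) (U b)

/-- The common value divides the product. -/
theorem totient_dvd {n : ℕ} (hn : 1 ≤ n) (hφ : φ n = φ (n + 1)) :
    φ n ∣ Nat.gcd (U n) (U (n + 1)) * (KK n * KK (n + 1)) := by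
  have h1 := totient_eq (n := n) (by omega)
  have h2 := totient_eq (n := n + 1) (by omega)
  rw [← Nat.gcd_mul_right]
  apply Nat.dvd_gcd
  · rw [h1, ← mul_assoc]
    exact dvd_mul_right _ _
  · rw [hφ, h2, mul_comm (KK n), ← mul_assoc]
    exact dvd_mul_right _ _

theorem om_cover {n N L c K : ℕ} {w R X z : ℝ} (hL : 1 ≤ L) (hn : 1 ≤ n) (hnN : n ≤ N) (hc : 1 ≤ c)
    (hK : 1 ≤ K) (hcK : N + 1 ≤ c ^ K) (hc4 : c ^ 4 ≤ N + 1) (hX : (N : ℝ) + 1 ≤ X)
    (hw : 0 ≤ w) (hz : 0 ≤ z) (hR : w ^ 2 * z ^ (K * K) ≤ R) (hφ : φ n = φ (n + 1)) :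
    w < KK n ∨ w < KK (n + 1) ∨ om L (φ n) < R ∨
    (∃ r r' : ℕ, r.Prime ∧ r'.Prime ∧ r ∣ n ∧ r' ∣ n + 1 ∧ X < r * r') ∨
    (∃ r : ℕ, r.Prime ∧ r ∣ n ∧ n ≤ c ^ 2 * r) ∨
    (∃ r : ℕ, r.Prime ∧ r ∣ n + 1 ∧ n + 1 ≤ c ^ 2 * r) ∨
    (∃ a b : ℕ, a ∣ n ∧ b ∣ n + 1 ∧ Squarefree a ∧ Squarefree b ∧ ((a * b : ℕ) : ℝ) ≤ X ∧
      z ≤ om L (Nat.gcd (U a) (U b))) := by
  by_contra hcon
  push Not at hcon
  obtain ⟨hA, hB, hC, hD, hE, hF, hG⟩ := hcon
  set v := U (n + 1) with hv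
  -- first selection
  obtain ⟨a, ha1, ha2, ha3⟩ := exists_dvd_select_real c hc (fun a => om L (Nat.gcd (U a) v))
    (fun a => one_le_om hL gcd_U_ne) (om_gcd_U_mul_le hL v) K
    (∏ r ∈ n.primeFactors, r) hK (rad_squarefree n)
    ((Nat.le_of_dvd hn (Nat.prod_primeFactors_dvd n)).trans (by omega))
  simp only [U_rad] at ha3
  set v2 := Nat.gcd (U a) v with hv2
  obtain ⟨b, hb1, hb2, hb3⟩ := exists_dvd_select_real c hc (fun b => om L (Nat.gcd (U b) v2))
    (fun b => one_le_om hL gcd_U_ne) (om_gcd_U_mul_le hL v2) K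
    (∏ r ∈ (n + 1).primeFactors, r) hK (rad_squarefree (n + 1))
    ((Nat.le_of_dvd (by omega) (Nat.prod_primeFactors_dvd (n + 1))).trans (by omega))
  simp only [U_rad] at hb3
  have hv2d : v2 ∣ U (n + 1) := Nat.gcd_dvd_right _ _
  rw [Nat.gcd_eq_right hv2d] at hb3
  have han : a ∣ n := ha1.trans (Nat.prod_primeFactors_dvd n)
  have hbn : b ∣ n + 1 := hb1.trans (Nat.prod_primeFactors_dvd (n + 1))
  have hsa : Squarefree a := (rad_squarefree n).squarefree_of_dvd ha1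
  have hsb : Squarefree b := (rad_squarefree (n + 1)).squarefree_of_dvd hb1
  -- the product
  have hab : ((a * b : ℕ) : ℝ) ≤ X := by
    rcases ha2 with ha2 | ha2 <;> rcases hb2 with hb2 | hb2
    · have := hD a b ha2 hb2 han hbn
      push_cast
      exact this
    · have h1 := hE a ha2 han
      have h2 : a * b ≤ N + 1 := by
        calc a * b ≤ a * c ^ 2 := Nat.mul_le_mul_left _ hb2
          _ = c ^ 2 * a := mul_comm _ _
          _ ≤ N + 1 := by omega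
      exact le_trans (by exact_mod_cast h2) hX
    · have h1 := hF b hb2 hbn
      have h2 : a * b ≤ N + 1 := by
        calc a * b ≤ c ^ 2 * b := Nat.mul_le_mul_right _ ha2
          _ ≤ N + 1 := by omega
      exact le_trans (by exact_mod_cast h2) hX
    · have h2 : a * b ≤ N + 1 := by
        calc a * b ≤ c ^ 2 * c ^ 2 := Nat.mul_le_mul ha2 hb2
          _ = c ^ 4 := by ring
          _ ≤ N + 1 := hc4
      exact le_trans (by exact_mod_cast h2) hX
  have hg := hG a b han hbn hsa hsb hab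
  set g := om L (Nat.gcd (U a) (U b)) with hgdef
  -- the gcd
  have hle : om L (Nat.gcd (U b) v2) ≤ g := by
    apply om_mono hL _ gcd_U_ne
    apply Nat.dvd_gcd
    · exact (Nat.gcd_dvd_right _ _).trans (Nat.gcd_dvd_left _ _)
    · exact Nat.gcd_dvd_left _ _
  have h1v2 : 1 ≤ om L v2 := one_le_om hL gcd_U_ne
  have h1b : 1 ≤ om L (Nat.gcd (U b) v2) := one_le_om hL gcd_U_ne
  have hg1 : 1 ≤ g := one_le_om hL gcd_U_ne
  have hchain : om L (Nat.gcd (U n) v) ≤ g ^ (K * K) := by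
    calc om L (Nat.gcd (U n) v) ≤ om L v2 ^ K := ha3
      _ ≤ (g ^ K) ^ K := pow_le_pow_left₀ (by linarith)
          (hb3.trans (pow_le_pow_left₀ (by linarith) hle K)) K
      _ = g ^ (K * K) := (pow_mul g K K).symm
  have hk1 := KK_pos (n := n) (by omega)
  have hk2 := KK_pos (n := n + 1) (by omega)
  have h3 : om L (φ n) ≤ g ^ (K * K) * ((KK n : ℝ) * (KK (n + 1) : ℝ)) := by
    have e1 := om_mono hL (totient_dvd hn hφ) (mul_ne_zero gcd_U_ne (Nat.mul_pos hk1 hk2).ne')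
    rw [om_mul gcd_U_ne (Nat.mul_pos hk1 hk2).ne', om_mul hk1.ne' hk2.ne'] at e1
    have e2 := om_le hL hk1.ne'
    have e3 := om_le hL hk2.ne'
    have e4 := (om_pos hL hk1.ne').le
    have e5 := (om_pos hL hk2.ne').le
    refine e1.trans (mul_le_mul hchain (mul_le_mul e2 e3 e5 (Nat.cast_nonneg _))
      (mul_nonneg e4 e5) (pow_nonneg (by linarith) _))
  have h4 : g ^ (K * K) < z ^ (K * K) :=
    pow_lt_pow_left₀ hg (by linarith) (by
      have : 0 < K * K := Nat.mul_pos hK hK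
      omega)
  have h5 : (0 : ℝ) < (KK n : ℝ) * (KK (n + 1) : ℝ) := by positivity
  have h6 : (KK n : ℝ) * (KK (n + 1) : ℝ) ≤ w ^ 2 := by
    rw [sq]
    exact mul_le_mul hA hB (Nat.cast_nonneg _) hw
  have h7 : om L (φ n) < R := by
    calc om L (φ n) ≤ g ^ (K * K) * ((KK n : ℝ) * (KK (n + 1) : ℝ)) := h3
      _ < z ^ (K * K) * ((KK n : ℝ) * (KK (n + 1) : ℝ)) := mul_lt_mul_of_pos_right h4 h5
      _ ≤ z ^ (K * K) * w ^ 2 := mul_le_mul_of_nonneg_left h6 (pow_nonneg hz _)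
      _ = w ^ 2 * z ^ (K * K) := mul_comm _ _
      _ ≤ R := hR
  exact absurd h7 (not_lt.2 hC)

end Pool.Agent.Helper99.CV
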