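import Pool.Agent.Helper9.TN.Assembly
import Pool.Agent.Helper99.CV.Weight

/-!
# CV-4: the sum of the reciprocals of the weight
-/

set_option autoImplicit false

open Finset
open scoped Nat

namespace Pool.Agent.Helper99.CV

open Pool.Agent.TN

theorem om_zero (L : ℕ) : om L 0 = 1 := by simp [om]

/-- The completely multiplicative function `m ^ (-s) / om L m`. -/
noncomputable def fH (L : ℕ) (s : ℝ) (hs : 0 < s) : ℕ →* ℝ where
  toFun m := (m : ℝ) ^ (-s) / om L m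
  map_one' := by simp [om_one]
  map_mul' a b := by
    rcases eq_or_ne a 0 with h | h
    · subst h
      rw [zero_mul, Nat.cast_zero, Real.zero_rpow (by linarith)]
      ring
    rcases eq_or_ne b 0 with h' | h'
    · subst h'
      rw [mul_zero, Nat.cast_zero, Real.zero_rpow (by linarith)]
      ring
    rw [om_mul h h', Nat.cast_mul, Real.mul_rpow (Nat.cast_nonneg _) (Nat.cast_nonneg _)]
    ring

theorem fH_apply (L : ℕ) (s : ℝ) (hs : 0 < s) (m : ℕ) : fH L s hs m = (m : ℝ) ^ (-s) / om L m := rfl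

theorem fH_nonneg {L : ℕ} (hL : 1 ≤ L) (s : ℝ) (hs : 0 < s) (m : ℕ) : 0 ≤ fH L s hs m := by
  rw [fH_apply]
  rcases eq_or_ne m 0 with h | h
  · rw [h, om_zero]
    positivity
  · have := om_pos hL h
    positivity

theorem fH_prime_le {L : ℕ} (hL : 1 ≤ L) (s : ℝ) (hs : 0 < s) {p : ℕ} (hp : p.Prime) :
    fH L s hs p ≤ (2 : ℝ) ^ (-s) := by
  rw [fH_apply]
  calc (p : ℝ) ^ (-s) / om L p ≤ (p : ℝ) ^ (-s) :=
        div_le_self (by positivity) (one_le_om hL hp.ne_zero)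
    _ ≤ (2 : ℝ) ^ (-s) := Real.rpow_le_rpow_of_nonpos (by norm_num)
        (by exact_mod_cast hp.two_le) (by linarith)

theorem two_rpow_lt (s : ℝ) (hs : 0 < s) : (2 : ℝ) ^ (-s) < 1 :=
  Real.rpow_lt_one_of_one_lt_of_neg (by norm_num) (by linarith)

theorem sum_fH_le {L : ℕ} (hL : 1 ≤ L) (s : ℝ) (hs : 0 < s) (N : ℕ) :
    ∑ m ∈ Icc 1 N, fH L s hs m ≤
      Real.exp ((1 - (2 : ℝ) ^ (-s))⁻¹ * ∑ p ∈ (N + 1).primesBelow, fH L s hs p) := by
  have h2s := two_rpow_lt s hs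
  have hlt : ∀ {p : ℕ}, p.Prime → ‖fH L s hs p‖ < 1 := by
    intro p hp
    rw [Real.norm_of_nonneg (fH_nonneg hL s hs p)]
    exact (fH_prime_le hL s hs hp).trans_lt h2s
  have h := (EulerProduct.summable_and_hasSum_smoothNumbers_prod_primesBelow_geometric
    (f := fH L s hs) (fun {p} hp => hlt hp) (N + 1)).2
  have h2 := sum_le_hasSum ((Icc 1 N).subtype (· ∈ Nat.smoothNumbers (N + 1))) (fun i _ => by
    show 0 ≤ fH L s hs i
    exact fH_nonneg hL s hs _) h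
  have h3 : ∑ m ∈ Icc 1 N, fH L s hs m ≤ ∏ p ∈ (N + 1).primesBelow, (1 - fH L s hs p)⁻¹ := by
    refine le_trans (le_of_eq ?_) h2
    rw [Finset.sum_subtype_of_mem (p := (· ∈ Nat.smoothNumbers (N + 1))) (fun i => (fH L s hs i : ℝ))]
    · intro x hx
      rw [mem_Icc] at hx
      rw [Nat.mem_smoothNumbers']
      intro p hp hpx
      exact lt_of_le_of_lt (Nat.le_of_dvd (by omega) hpx) (by omega)
  refine h3.trans ?_
  rw [Finset.mul_sum, Real.exp_sum]
  refine Finset.prod_le_prod (fun p hp => ?_) fun p hp => ?_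
  · have h4 := fH_prime_le hL s hs (Nat.prime_of_mem_primesBelow hp)
    exact inv_nonneg.2 (by linarith)
  · have hpp := Nat.prime_of_mem_primesBelow hp
    have h4 := fH_prime_le hL s hs hpp
    have h5 := fH_nonneg hL s hs p
    have h6 : (1 - fH L s hs p)⁻¹ = fH L s hs p / (1 - fH L s hs p) + 1 := by
      have : 1 - fH L s hs p ≠ 0 := by linarith
      field_simp
      ring
    rw [h6]
    refine (Real.add_one_le_exp _).trans (Real.exp_le_exp.2 ?_)
    rw [div_eq_mul_inv, mul_comm]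
    refine mul_le_mul_of_nonneg_right ?_ h5
    exact inv_anti₀ (by linarith) (by linarith)

/-- Tails of the series. -/
theorem exists_tail (s δ : ℝ) (hs : 0 < s) (hδ : 0 < δ) : ∃ M1 : ℕ, ∀ T : Finset ℕ,
    (∀ m ∈ T, M1 ≤ m) → ∑ m ∈ T, (m : ℝ) ^ (-(1 + s)) ≤ δ := by
  have hsum : Summable fun m : ℕ => (m : ℝ) ^ (-(1 + s)) :=
    Real.summable_nat_rpow.2 (by linarith)
  obtain ⟨S, hS⟩ := summable_iff_vanishing_norm.1 hsum δ hδ
  refine ⟨S.sup id + 1, fun T hT => ?_⟩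
  have hd : Disjoint T S := by
    rw [Finset.disjoint_left]
    intro m hm hmS
    have h1 := hT m hm
    have h2 : m ≤ S.sup id := Finset.le_sup (f := id) hmS
    omega
  have h3 := hS T hd
  exact (le_abs_self _).trans h3.le

theorem sum_primes_fH_le {L : ℕ} (hL : 1 ≤ L) (s δ : ℝ) (hs : 0 < s) (M M1 : ℕ) (hM : 1 ≤ M)
    (hM1 : ∀ T : Finset ℕ, (∀ m ∈ T, M1 ≤ m) → ∑ m ∈ T, (m : ℝ) ^ (-(1 + s)) ≤ δ)
    (hLM : M1 ≤ L) (N : ℕ) :
    ∑ p ∈ (N + 1).primesBelow, fH L s hs p ≤ M + L * (M : ℝ) ^ (-s) + L * δ := by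
  classical
  have hL0 : (0 : ℝ) < L := by exact_mod_cast hL
  have hM0 : (0 : ℝ) < M := by exact_mod_cast hM
  set P := (N + 1).primesBelow with hP
  have h1 : ∀ p ∈ P, fH L s hs p ≤ (if p ≤ M then (1 : ℝ) else 0) +
      (if p ≤ L then (M : ℝ) ^ (-s) else 0) + (if L < p then L * (p : ℝ) ^ (-(1 + s)) else 0) := by
    intro p hp
    have hpp := Nat.prime_of_mem_primesBelow hp
    have hp0 : (0 : ℝ) < p := by exact_mod_cast hpp.pos
    have h2 : (0 : ℝ) ≤ (M : ℝ) ^ (-s) := by positivity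
    have h3 : (0 : ℝ) ≤ L * (p : ℝ) ^ (-(1 + s)) := by positivity
    by_cases hpM : p ≤ M
    · have h4 := (fH_prime_le hL s hs hpp).trans (two_rpow_lt s hs).le
      rw [if_pos hpM]
      split_ifs <;> linarith
    · rw [if_neg hpM]
      by_cases hpL : p ≤ L
      · rw [if_pos hpL, if_neg (not_lt.2 hpL), fH_apply, om_prime hpp, if_neg (not_lt.2 hpL), div_one]
        have h5 : (p : ℝ) ^ (-s) ≤ (M : ℝ) ^ (-s) :=
          Real.rpow_le_rpow_of_nonpos hM0 (by exact_mod_cast (not_le.1 hpM).le) (by linarith)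
        linarith
      · rw [if_neg hpL, if_pos (not_le.1 hpL), fH_apply, om_prime hpp, if_pos (not_le.1 hpL)]
        rw [neg_add, Real.rpow_add hp0, Real.rpow_neg_one]
        have : (p : ℝ) ^ (-s) / (p / L) = L * ((p : ℝ)⁻¹ * (p : ℝ) ^ (-s)) := by
          field_simp
        rw [this]
        linarith
  refine (Finset.sum_le_sum h1).trans ?_
  rw [Finset.sum_add_distrib, Finset.sum_add_distrib]
  have hpos : ∀ p ∈ P, 1 ≤ p := fun p hp => (Nat.prime_of_mem_primesBelow hp).one_le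
  have hcard : ∀ B : ℕ, ((P.filter (fun p => p ≤ B)).card : ℝ) ≤ B := by
    intro B
    have h2 : P.filter (fun p => p ≤ B) ⊆ Icc 1 B := by
      intro p hp
      rw [Finset.mem_filter] at hp
      exact Finset.mem_Icc.2 ⟨hpos p hp.1, hp.2⟩
    have h3 := Finset.card_le_card h2
    rw [Nat.card_Icc, Nat.add_sub_cancel] at h3
    exact_mod_cast h3
  refine add_le_add (add_le_add ?_ ?_) ?_
  · rw [← Finset.sum_filter, Finset.sum_const, nsmul_eq_mul, mul_one]
    exact hcard M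
  · rw [← Finset.sum_filter, Finset.sum_const, nsmul_eq_mul]
    exact mul_le_mul_of_nonneg_right (hcard L) (by positivity)
  · rw [← Finset.sum_filter, ← Finset.mul_sum]
    refine mul_le_mul_of_nonneg_left (hM1 _ fun m hm => ?_) hL0.le
    exact hLM.trans (Finset.mem_filter.1 hm).2.le

/-- The sum of the reciprocals of the weight is `N ^ o(1)`. -/
theorem sum_inv_om {η : ℝ} (hη : 0 < η) : ∀ᶠ N : ℕ in Filter.atTop, ∀ L : ℕ, Real.log N ≤ L →
    (L : ℝ) ≤ 2 * Real.log N → ∑ m ∈ Icc 1 N, 1 / om L m ≤ (N : ℝ) ^ η := by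
  obtain ⟨s, hsdef⟩ : ∃ s, s = η / 2 := ⟨_, rfl⟩
  have hs : 0 < s := by rw [hsdef]; positivity
  have h2s := two_rpow_lt s hs
  obtain ⟨Cs, hCs⟩ : ∃ Cs, Cs = (1 - (2 : ℝ) ^ (-s))⁻¹ := ⟨_, rfl⟩
  have hCs0 : 0 < Cs := by rw [hCs]; exact inv_pos.2 (by linarith)
  obtain ⟨M, hM1, hM⟩ : ∃ M : ℕ, 1 ≤ M ∧ Cs * (M : ℝ) ^ (-s) ≤ η / 16 := by
    have h1 : Filter.Tendsto (fun M : ℕ => Cs * (M : ℝ) ^ (-s)) Filter.atTop (nhds (Cs * 0)) :=
      ((tendsto_rpow_neg_atTop hs).comp tendsto_natCast_atTop_atTop).const_mul Cs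
    rw [mul_zero] at h1
    have h2 := h1.eventually (gt_mem_nhds (by positivity : (0 : ℝ) < η / 16))
    obtain ⟨M, hM, hM'⟩ := (h2.and (Filter.eventually_ge_atTop 1)).exists
    exact ⟨M, hM', hM.le⟩
  obtain ⟨δ, hδ, hδ'⟩ : ∃ δ : ℝ, 0 < δ ∧ Cs * δ ≤ η / 16 := by
    refine ⟨η / 16 / Cs, by positivity, le_of_eq ?_⟩
    field_simp
  obtain ⟨M1, hM1'⟩ := exists_tail s δ hs hδ
  have hlim' : Filter.Tendsto (fun N : ℕ => Real.log (N : ℝ)) Filter.atTop Filter.atTop :=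
    Real.tendsto_log_atTop.comp tendsto_natCast_atTop_atTop
  filter_upwards [hlim'.eventually_ge_atTop 1, hlim'.eventually_ge_atTop (M1 : ℝ),
    hlim'.eventually_ge_atTop (4 * (Cs * M) / η), Filter.eventually_ge_atTop 1]
    with N hl hlM hlC hN L hL1 hL2
  have hL : 1 ≤ L := by
    have : (1 : ℝ) ≤ L := hl.trans hL1
    exact_mod_cast this
  have hLM : M1 ≤ L := by
    have : (M1 : ℝ) ≤ L := hlM.trans hL1
    exact_mod_cast this
  have hN0 : (0 : ℝ) < N := by exact_mod_cast (by omega : 0 < N)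
  have hN1 : (1 : ℝ) ≤ N := by exact_mod_cast hN
  have h1 : ∑ m ∈ Icc 1 N, 1 / om L m ≤ (N : ℝ) ^ s * ∑ m ∈ Icc 1 N, fH L s hs m := by
    rw [Finset.mul_sum]
    refine Finset.sum_le_sum fun m hm => ?_
    rw [Finset.mem_Icc] at hm
    have hm0 : m ≠ 0 := by omega
    have hmR : (0 : ℝ) < m := by exact_mod_cast hm.1
    rw [fH_apply, ← mul_div_assoc]
    refine div_le_div_of_nonneg_right ?_ (om_pos hL hm0).le
    rw [Real.rpow_neg hmR.le, ← div_eq_mul_inv, le_div_iff₀ (by positivity), one_mul]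
    exact Real.rpow_le_rpow hmR.le (by exact_mod_cast hm.2) hs.le
  have h2 := sum_fH_le hL s hs N
  have h3 := sum_primes_fH_le hL s δ hs M M1 hM1 hM1' hLM N
  rw [← hCs] at h2
  have h4 : Cs * ∑ p ∈ (N + 1).primesBelow, fH L s hs p ≤ η / 2 * Real.log N := by
    have h5 := mul_le_mul_of_nonneg_left h3 hCs0.le
    have h6 : Cs * M ≤ η / 4 * Real.log N := by
      rw [div_le_iff₀ hη] at hlC
      linarith
    have hL0 : (0 : ℝ) ≤ L := Nat.cast_nonneg L
    have h7 : L * (Cs * (M : ℝ) ^ (-s)) ≤ L * (η / 16) := mul_le_mul_of_nonneg_left hM hL0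
    have h8 : L * (Cs * δ) ≤ L * (η / 16) := mul_le_mul_of_nonneg_left hδ' hL0
    have h9 : (L : ℝ) * (η / 16) ≤ 2 * Real.log N * (η / 16) :=
      mul_le_mul_of_nonneg_right hL2 (by positivity)
    calc Cs * ∑ p ∈ (N + 1).primesBelow, fH L s hs p
        ≤ Cs * (M + L * (M : ℝ) ^ (-s) + L * δ) := h5
      _ = Cs * M + L * (Cs * (M : ℝ) ^ (-s)) + L * (Cs * δ) := by ring
      _ ≤ _ := by linarith
  calc ∑ m ∈ Icc 1 N, 1 / om L m ≤ (N : ℝ) ^ s * ∑ m ∈ Icc 1 N, fH L s hs m := h1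
    _ ≤ (N : ℝ) ^ s * Real.exp (η / 2 * Real.log N) := by
        refine mul_le_mul_of_nonneg_left (h2.trans (Real.exp_le_exp.2 h4)) (by positivity)
    _ = (N : ℝ) ^ η := by
        rw [mul_comm (η / 2), ← Real.rpow_def_of_pos hN0, ← Real.rpow_add hN0, hsdef]
        congr 1
        ring

end Pool.Agent.Helper99.CV
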