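import Pool.Agent.Helper9.TN.Glue
import Pool.Agent.Helper99.CV.Weight

/-!
# CV-2: the moment of the weight of the greatest common divisor
-/

set_option autoImplicit false

open Finset
open scoped Nat

namespace Pool.Agent.Helper99.CV

open Pool.Agent.TN

/-- the sum over squarefree numbers is at most the Euler product -/
private theorem sum_squarefree_le (M : ℕ) (h : ℕ → ℝ) (hh : ∀ r, 0 ≤ h r) :
    ∑ a ∈ (Finset.Icc 1 M).filter Squarefree, (∏ r ∈ a.primeFactors, h r) / a ≤
      Real.exp (∑ r ∈ (Finset.Icc 1 M).filter Nat.Prime, h r / r) := by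
  classical
  set P := (Finset.Icc 1 M).filter Nat.Prime with hP
  set A := (Finset.Icc 1 M).filter Squarefree with hA
  let F : Finset ℕ → ℝ := fun S => ∏ r ∈ S, h r / r
  have hF : ∀ S, 0 ≤ F S := fun S => Finset.prod_nonneg fun r _ => div_nonneg (hh r) (Nat.cast_nonneg r)
  have h1 : ∀ a ∈ A, (∏ r ∈ a.primeFactors, h r) / a = F a.primeFactors := by
    intro a ha
    rw [hA, Finset.mem_filter] at ha
    have h2 : ((∏ r ∈ a.primeFactors, r : ℕ) : ℝ) = a := by
      rw [Nat.prod_primeFactors_of_squarefree ha.2]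
    change _ = ∏ r ∈ a.primeFactors, h r / (r : ℝ)
    rw [Finset.prod_div_distrib, ← Nat.cast_prod, h2]
  have h3 : Set.InjOn Nat.primeFactors (A : Set ℕ) := by
    intro a ha b hb hab
    rw [Finset.mem_coe, hA, Finset.mem_filter] at ha hb
    rw [← Nat.prod_primeFactors_of_squarefree ha.2, ← Nat.prod_primeFactors_of_squarefree hb.2, hab]
  rw [Finset.sum_congr rfl h1, ← Finset.sum_image (f := F) h3]
  calc ∑ S ∈ A.image Nat.primeFactors, F S ≤ ∑ S ∈ P.powerset, F S := by
        refine Finset.sum_le_sum_of_subset_of_nonneg ?_ fun S _ _ => hF S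
        intro S hS
        obtain ⟨a, ha, rfl⟩ := Finset.mem_image.1 hS
        rw [Finset.mem_powerset]
        intro r hr
        rw [hA, Finset.mem_filter, Finset.mem_Icc] at ha
        rw [hP, Finset.mem_filter, Finset.mem_Icc]
        have hrp := Nat.prime_of_mem_primeFactors hr
        exact ⟨⟨hrp.one_le, (Nat.le_of_mem_primeFactors hr).trans ha.1.2⟩, hrp⟩
    _ = ∏ r ∈ P, (1 + h r / r) := (Finset.prod_one_add P).symm
    _ ≤ ∏ r ∈ P, Real.exp (h r / r) := by
        refine Finset.prod_le_prod (fun r _ => ?_) fun r _ => ?_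
        · have := div_nonneg (hh r) (Nat.cast_nonneg (α := ℝ) r)
          linarith
        · rw [add_comm]
          exact Real.add_one_le_exp _
    _ = Real.exp (∑ r ∈ P, h r / r) := (Real.exp_sum _ _).symm

theorem om_gcd_prod_le {L v : ℕ} (hL : 1 ≤ L) (hv : v ≠ 0) (s : Finset ℕ) (f : ℕ → ℕ) :
    om L (Nat.gcd (∏ i ∈ s, f i) v) ≤ ∏ i ∈ s, om L (Nat.gcd (f i) v) := by
  classical
  have hg : ∀ a, Nat.gcd a v ≠ 0 := fun a => (Nat.gcd_pos_of_pos_right _ (Nat.pos_of_ne_zero hv)).ne'
  induction s using Finset.induction_on with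
  | empty => simp [om_one]
  | insert i s hi ih =>
    rw [Finset.prod_insert hi, Finset.prod_insert hi]
    have h1 : Nat.gcd (f i * ∏ j ∈ s, f j) v ∣ Nat.gcd (f i) v * Nat.gcd (∏ j ∈ s, f j) v :=
      Nat.gcd_mul_left_dvd_mul_gcd _ _ _
    refine (om_mono hL h1 (mul_ne_zero (hg _) (hg _))).trans ?_
    rw [om_mul (hg _) (hg _)]
    exact mul_le_mul_of_nonneg_left ih (om_pos hL (hg _)).le

/-- the sum over the primes, before the numerical estimates -/
private theorem sum_primes_le (C : ℝ) (hC : ∀ (X e : ℕ), 3 ≤ X → 1 ≤ e →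
    ∑ r ∈ (Finset.Icc 1 X).filter (fun r => r.Prime ∧ e ∣ r - 1), (1 / r : ℝ) ≤
      C * (1 + Real.log (Real.log X)) / φ e) (L M v : ℕ) (hL : 1 ≤ L) (hM : 3 ≤ M) (hv : v ≠ 0) :
    ∑ r ∈ (Finset.Icc 1 M).filter Nat.Prime, om L (Nat.gcd (r - 1) v) / r ≤
      C * (1 + Real.log (Real.log M)) * ∑ e ∈ (ro L v).divisors, om L e / φ e := by
  classical
  have hV := (ro_pos L v).ne'
  have hg : ∀ a, Nat.gcd a v ≠ 0 := fun a => (Nat.gcd_pos_of_pos_right _ (Nat.pos_of_ne_zero hv)).ne'
  calc ∑ r ∈ (Finset.Icc 1 M).filter Nat.Prime, om L (Nat.gcd (r - 1) v) / r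
      ≤ ∑ r ∈ (Finset.Icc 1 M).filter Nat.Prime, ∑ e ∈ (ro L v).divisors,
          (if e ∣ r - 1 then om L e * (1 / r) else 0) := by
        refine Finset.sum_le_sum fun r _ => ?_
        have h0 : ro L (Nat.gcd (r - 1) v) ∣ ro L v := by
          refine dvd_ro hv ((ro_dvd (hg _)).trans (Nat.gcd_dvd_right _ _)) fun p hp hpd => ?_
          exact lt_of_dvd_ro hp hpd
        have h1 : ro L (Nat.gcd (r - 1) v) ∈ (ro L v).divisors := Nat.mem_divisors.2 ⟨h0, hV⟩
        refine le_trans (le_of_eq ?_) (Finset.single_le_sum (f := fun e : ℕ =>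
          (if e ∣ r - 1 then om L e * (1 / r) else 0)) (fun e he => ?_) h1)
        · have h2 : ro L (Nat.gcd (r - 1) v) ∣ r - 1 := (ro_dvd (hg _)).trans (Nat.gcd_dvd_left _ _)
          simp only [h2, if_true]
          rw [om_ro (hg _), div_eq_mul_one_div]
        · split_ifs
          · have := om_pos hL (Nat.pos_of_mem_divisors he).ne'
            positivity
          · exact le_rfl
    _ = ∑ e ∈ (ro L v).divisors, om L e *
          ∑ r ∈ (Finset.Icc 1 M).filter (fun r => r.Prime ∧ e ∣ r - 1), (1 / r : ℝ) := by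
        rw [Finset.sum_comm]
        refine Finset.sum_congr rfl fun e _ => ?_
        rw [Finset.mul_sum, ← Finset.filter_filter]
        exact (Finset.sum_filter _ _).symm
    _ ≤ ∑ e ∈ (ro L v).divisors, om L e * (C * (1 + Real.log (Real.log M)) / φ e) := by
        refine Finset.sum_le_sum fun e he => ?_
        refine mul_le_mul_of_nonneg_left (hC M e hM (Nat.pos_of_mem_divisors he)) ?_
        exact (om_pos hL (Nat.pos_of_mem_divisors he).ne').le
    _ = C * (1 + Real.log (Real.log M)) * ∑ e ∈ (ro L v).divisors, om L e / φ e := by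
        rw [Finset.mul_sum]
        refine Finset.sum_congr rfl fun e _ => ?_
        ring

theorem om_good_sum : ∃ C : ℝ, 0 < C ∧
    ∀ᶠ N : ℕ in Filter.atTop, ∀ L : ℕ, Real.log N ≤ L →
      ∀ v : ℕ, v ≠ 0 → v ≤ N + 1 →
        ∑ a ∈ (Finset.Icc 1 (N + 1)).filter Squarefree,
          om L (Nat.gcd (U a) v) / a ≤ (Real.log N) ^ C := by
  obtain ⟨C, hC0, hC⟩ := sum_inv_primes_mod
  refine ⟨3 * C * Real.exp 8, by positivity, ?_⟩
  have hlim : Filter.Tendsto (fun N : ℕ => Real.log (Real.log (N : ℝ))) Filter.atTop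
      Filter.atTop :=
    Real.tendsto_log_atTop.comp (Real.tendsto_log_atTop.comp tendsto_natCast_atTop_atTop)
  have hlim' : Filter.Tendsto (fun N : ℕ => Real.log (N : ℝ)) Filter.atTop Filter.atTop :=
    Real.tendsto_log_atTop.comp tendsto_natCast_atTop_atTop
  filter_upwards [hlim.eventually_ge_atTop 1, hlim'.eventually_ge_atTop 1,
    Filter.eventually_ge_atTop 2] with N hll hl hN L hLN v hv hvN
  have hL1 : 1 ≤ L := by
    have : (1 : ℝ) ≤ L := hl.trans hLN
    exact_mod_cast this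
  have hNpos : (0 : ℝ) < N := by exact_mod_cast (by omega : 0 < N)
  have hlog1 : Real.log (N + 1) ≤ 2 * Real.log N := by
    have h1 : (N : ℝ) + 1 ≤ N ^ 2 := by
      have : (2 : ℝ) ≤ N := by exact_mod_cast hN
      nlinarith
    calc Real.log (N + 1) ≤ Real.log ((N : ℝ) ^ 2) := Real.log_le_log (by linarith) h1
      _ = 2 * Real.log N := by rw [Real.log_pow]; norm_num
  have hlog0 : 0 < Real.log N := by linarith
  have hlogN : Real.log N ≤ Real.log (N + 1) := Real.log_le_log hNpos (by linarith)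
  have hll1 : 1 + Real.log (Real.log ((N + 1 : ℕ) : ℝ)) ≤ 3 * Real.log (Real.log N) := by
    have h2 : Real.log (Real.log ((N + 1 : ℕ) : ℝ)) ≤ Real.log 2 + Real.log (Real.log N) := by
      rw [← Real.log_mul (by norm_num) hlog0.ne']
      push_cast
      exact Real.log_le_log (by linarith) hlog1
    have h3 : Real.log 2 ≤ 1 := by
      have := Real.log_two_lt_d9
      linarith
    linarith
  have hg : ∀ a, Nat.gcd a v ≠ 0 := fun a => (Nat.gcd_pos_of_pos_right _ (Nat.pos_of_ne_zero hv)).ne'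
  calc ∑ a ∈ (Finset.Icc 1 (N + 1)).filter Squarefree,
          om L (Nat.gcd (U a) v) / a
      ≤ ∑ a ∈ (Finset.Icc 1 (N + 1)).filter Squarefree,
          (∏ r ∈ a.primeFactors, om L (Nat.gcd (r - 1) v)) / a := by
        refine Finset.sum_le_sum fun a _ => ?_
        refine div_le_div_of_nonneg_right ?_ (Nat.cast_nonneg a)
        exact om_gcd_prod_le hL1 hv a.primeFactors (fun r => r - 1)
    _ ≤ Real.exp (∑ r ∈ (Finset.Icc 1 (N + 1)).filter Nat.Prime,
          om L (Nat.gcd (r - 1) v) / r) :=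
        sum_squarefree_le (N + 1) _ fun r => (om_pos hL1 (hg _)).le
    _ ≤ Real.exp (Real.log (Real.log N) * (3 * C * Real.exp 8)) := by
        refine Real.exp_le_exp.2 ?_
        refine (sum_primes_le C hC L (N + 1) v hL1 (by omega) hv).trans ?_
        have hlen : ((ro L v).primeFactorsList.length : ℝ) ≤ 4 * L := by
          have e1 := length_le_log (ro_pos L v).ne'
          have e2 : ro L v ≤ N + 1 := (Nat.le_of_dvd (Nat.pos_of_ne_zero hv) (ro_dvd hv)).trans hvN
          have e3 : Real.log (ro L v) ≤ Real.log (N + 1) := by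
            refine Real.log_le_log (by exact_mod_cast ro_pos L v) ?_
            exact_mod_cast e2
          linarith
        have h4 := sum_om_div_totient hL1 (ro_pos L v).ne' (fun p hp hpd => lt_of_dvd_ro hp hpd) hlen
        have h5 : 0 ≤ ∑ e ∈ (ro L v).divisors, om L e / φ e :=
          Finset.sum_nonneg fun e he =>
            div_nonneg (om_pos hL1 (Nat.pos_of_mem_divisors he).ne').le (Nat.cast_nonneg _)
        have h6 : 0 ≤ Real.log (Real.log N) := by linarith
        calc C * (1 + Real.log (Real.log ((N + 1 : ℕ) : ℝ))) *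
              ∑ e ∈ (ro L v).divisors, om L e / φ e
            ≤ C * (3 * Real.log (Real.log N)) *
              ∑ e ∈ (ro L v).divisors, om L e / φ e := by
              refine mul_le_mul_of_nonneg_right ?_ h5
              exact mul_le_mul_of_nonneg_left hll1 hC0.le
          _ ≤ C * (3 * Real.log (Real.log N)) * Real.exp 8 := by
              refine mul_le_mul_of_nonneg_left h4 ?_
              positivity
          _ = _ := by ring
    _ = (Real.log N) ^ (3 * C * Real.exp 8) := (Real.rpow_def_of_pos hlog0 _).symm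

/-- the number of `n ≤ N` with `a ∣ n`, `b ∣ n + 1` -/
private theorem card_pair_le (N a b : ℕ) (ha : 0 < a) (hb : 0 < b) :
    ((Finset.Icc 1 N).filter (fun n => a ∣ n ∧ b ∣ n + 1)).card ≤ N / (a * b) + 1 := by
  classical
  have hab : 0 < a * b := Nat.mul_pos ha hb
  have h1 : ((Finset.Icc 1 N).filter (fun n => a ∣ n ∧ b ∣ n + 1)).card ≤
      (Finset.range (N / (a * b) + 1)).card := by
    refine Finset.card_le_card_of_injOn (fun n => n / (a * b)) ?_ ?_
    · intro n hn
      rw [Finset.mem_coe, Finset.mem_filter, Finset.mem_Icc] at hn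
      rw [Finset.mem_coe, Finset.mem_range]
      exact Nat.lt_succ_of_le (Nat.div_le_div_right hn.1.2)
    · intro n hn m hm hnm
      rw [Finset.mem_coe, Finset.mem_filter] at hn hm
      have hcop : Nat.Coprime a b := by
        have h2 : Nat.Coprime n (n + 1) := by
          rw [Nat.coprime_self_add_right]
          exact Nat.coprime_one_right n
        exact (h2.coprime_dvd_left hn.2.1).coprime_dvd_right hn.2.2
      have hmod : n ≡ m [MOD a * b] := by
        rw [← Nat.modEq_and_modEq_iff_modEq_mul hcop]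
        constructor
        · exact ((Nat.modEq_zero_iff_dvd.2 hn.2.1).trans (Nat.modEq_zero_iff_dvd.2 hm.2.1).symm)
        · have h3 : n + 1 ≡ m + 1 [MOD b] :=
            (Nat.modEq_zero_iff_dvd.2 hn.2.2).trans (Nat.modEq_zero_iff_dvd.2 hm.2.2).symm
          exact Nat.ModEq.add_right_cancel' 1 h3
      have h4 : n % (a * b) = m % (a * b) := hmod
      have h5 : n / (a * b) = m / (a * b) := hnm
      rw [← Nat.div_add_mod n (a * b), ← Nat.div_add_mod m (a * b), h4, h5]
  rwa [Finset.card_range] at h1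

theorem om_good_count : ∃ C : ℝ, 0 < C ∧
    ∀ᶠ N : ℕ in Filter.atTop, ∀ L : ℕ, Real.log N ≤ L →
      ∀ X z : ℝ, (N : ℝ) + 1 ≤ X → 0 < z → ∀ S : Finset ℕ,
        (∀ n ∈ S, 1 ≤ n ∧ n ≤ N ∧ ∃ a b : ℕ, a ∣ n ∧ b ∣ n + 1 ∧ Squarefree a ∧
          Squarefree b ∧ ((a * b : ℕ) : ℝ) ≤ X ∧ z ≤ om L (Nat.gcd (U a) (U b))) →
        (S.card : ℝ) ≤ X / z * (Real.log N) ^ C := by
  classical
  obtain ⟨C, hC0, hC⟩ := om_good_sum
  refine ⟨C + 2, by linarith, ?_⟩
  have hlim' : Filter.Tendsto (fun N : ℕ => Real.log (N : ℝ)) Filter.atTop Filter.atTop :=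
    Real.tendsto_log_atTop.comp tendsto_natCast_atTop_atTop
  filter_upwards [hC, hlim'.eventually_ge_atTop 6, Filter.eventually_ge_atTop 2] with
    N hNC hl hN L hLN X z hX hz0 S hS
  have hL1 : 1 ≤ L := by
    have : (1 : ℝ) ≤ L := by linarith
    exact_mod_cast this
  have hNpos : (0 : ℝ) < N := by exact_mod_cast (by omega : 0 < N)
  have hX0 : 0 < X := by linarith
  have hlog1 : Real.log (N + 1) ≤ 2 * Real.log N := by
    have h1 : (N : ℝ) + 1 ≤ N ^ 2 := by
      have : (2 : ℝ) ≤ N := by exact_mod_cast hN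
      nlinarith
    calc Real.log (N + 1) ≤ Real.log ((N : ℝ) ^ 2) := Real.log_le_log (by linarith) h1
      _ = 2 * Real.log N := by rw [Real.log_pow]; norm_num
  set B := (Finset.Icc 1 (N + 1)).filter Squarefree with hB
  set T := (B ×ˢ B).filter (fun p : ℕ × ℕ => ((p.1 * p.2 : ℕ) : ℝ) ≤ X ∧
    z ≤ om L (Nat.gcd (U p.1) (U p.2))) with hT
  have hBpos : ∀ a ∈ B, 0 < a := by
    intro a ha
    rw [hB, Finset.mem_filter, Finset.mem_Icc] at ha
    omega
  have hsub : S ⊆ T.biUnion (fun p : ℕ × ℕ =>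
      (Finset.Icc 1 N).filter (fun n => p.1 ∣ n ∧ p.2 ∣ n + 1)) := by
    intro n hn
    obtain ⟨h1, h2, a, b, ha0', hb, hsa, hsb, habX, habz⟩ := hS n hn
    rw [Finset.mem_biUnion]
    refine ⟨(a, b), ?_, ?_⟩
    · rw [hT, Finset.mem_filter, Finset.mem_product, hB, Finset.mem_filter, Finset.mem_filter,
        Finset.mem_Icc, Finset.mem_Icc]
      have e1 := Nat.le_of_dvd (by omega) ha0'
      have e2 := Nat.le_of_dvd (by omega) hb
      have e3 := Nat.pos_of_dvd_of_pos ha0' (by omega)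
      have e4 := Nat.pos_of_dvd_of_pos hb (by omega)
      exact ⟨⟨⟨⟨e3, by omega⟩, hsa⟩, ⟨⟨e4, (by omega : b ≤ N + 1)⟩, hsb⟩⟩, habX, habz⟩
    · rw [Finset.mem_filter, Finset.mem_Icc]
      exact ⟨⟨h1, h2⟩, ha0', hb⟩
  have hterm : ∀ p ∈ T, (((Finset.Icc 1 N).filter (fun n => p.1 ∣ n ∧ p.2 ∣ n + 1)).card : ℝ) ≤
      2 * (X / z) * ((1 / p.2 : ℝ) * (om L (Nat.gcd (U p.1) (U p.2)) / p.1)) := by
    rintro ⟨a, b⟩ hp
    rw [hT, Finset.mem_filter, Finset.mem_product] at hp
    obtain ⟨⟨ha, hb⟩, habX, habz⟩ := hp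
    dsimp only at ha hb habX habz ⊢
    have ha0 := hBpos a ha
    have hb0 := hBpos b hb
    have ha' : (0 : ℝ) < a := by exact_mod_cast ha0
    have hb' : (0 : ℝ) < b := by exact_mod_cast hb0
    have h1 : (((Finset.Icc 1 N).filter (fun n => a ∣ n ∧ b ∣ n + 1)).card : ℝ) ≤
        2 * X / (a * b) := by
      have h2 : (((Finset.Icc 1 N).filter (fun n => a ∣ n ∧ b ∣ n + 1)).card : ℝ) ≤
          ((N / (a * b) : ℕ) : ℝ) + 1 := by exact_mod_cast card_pair_le N a b ha0 hb0
      have h3 : ((N / (a * b) : ℕ) : ℝ) ≤ (N : ℝ) / ((a * b : ℕ) : ℝ) := Nat.cast_div_le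
      push_cast at h3 habX
      have h4 : (N : ℝ) / (a * b) ≤ X / (a * b) :=
        div_le_div_of_nonneg_right (by linarith) (by positivity)
      have h5 : 1 ≤ X / (a * b) := by
        rw [le_div_iff₀ (by positivity), one_mul]
        exact habX
      have h6 : 2 * X / (a * b : ℝ) = X / (a * b) + X / (a * b) := by ring
      rw [h6]
      linarith
    have h7 : 1 ≤ om L (Nat.gcd (U a) (U b)) / z := by
      rw [le_div_iff₀ hz0, one_mul]
      exact habz
    calc (((Finset.Icc 1 N).filter (fun n => a ∣ n ∧ b ∣ n + 1)).card : ℝ)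
        ≤ 2 * X / (a * b) * 1 := by rw [mul_one]; exact h1
      _ ≤ 2 * X / (a * b) * (om L (Nat.gcd (U a) (U b)) / z) :=
          mul_le_mul_of_nonneg_left h7 (by positivity)
      _ = _ := by
          field_simp
  have hUle : ∀ b ∈ B, U b ≤ N + 1 := by
    intro b hb
    rw [hB, Finset.mem_filter, Finset.mem_Icc] at hb
    exact (U_le (by omega)).trans hb.1.2
  have hnn : ∀ p ∈ B ×ˢ B, 0 ≤ (1 / p.2 : ℝ) * (om L (Nat.gcd (U p.1) (U p.2)) / p.1) := by
    intro p _
    have := (om_pos hL1 (Nat.gcd_pos_of_pos_left (U p.2) (U_pos p.1)).ne').le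
    positivity
  have hharm : ∑ b ∈ B, (1 / b : ℝ) ≤ 1 + 2 * Real.log N := by
    have h5 := harmonic_le_one_add_log (N + 1)
    rw [harmonic_eq_sum_Icc] at h5
    push_cast at h5
    calc ∑ b ∈ B, (1 / b : ℝ) ≤ ∑ b ∈ Finset.Icc 1 (N + 1), ((b : ℝ))⁻¹ := by
          rw [hB]
          refine (Finset.sum_le_sum_of_subset_of_nonneg (Finset.filter_subset _ _)
            (fun _ _ _ => by positivity)).trans (le_of_eq ?_)
          exact Finset.sum_congr rfl fun b _ => one_div _
      _ ≤ 1 + Real.log (N + 1) := h5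
      _ ≤ _ := by linarith
  calc (S.card : ℝ) ≤ ((T.biUnion (fun p : ℕ × ℕ =>
        (Finset.Icc 1 N).filter (fun n => p.1 ∣ n ∧ p.2 ∣ n + 1))).card : ℝ) := by
        exact_mod_cast Finset.card_le_card hsub
    _ ≤ ∑ p ∈ T, (((Finset.Icc 1 N).filter (fun n => p.1 ∣ n ∧ p.2 ∣ n + 1)).card : ℝ) := by
        exact_mod_cast Finset.card_biUnion_le
    _ ≤ ∑ p ∈ T, 2 * (X / z) * ((1 / p.2 : ℝ) * (om L (Nat.gcd (U p.1) (U p.2)) / p.1)) :=
        Finset.sum_le_sum hterm
    _ = 2 * (X / z) * ∑ p ∈ T, ((1 / p.2 : ℝ) * (om L (Nat.gcd (U p.1) (U p.2)) / p.1)) := by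
        rw [Finset.mul_sum]
    _ ≤ 2 * (X / z) * ∑ p ∈ B ×ˢ B, ((1 / p.2 : ℝ) * (om L (Nat.gcd (U p.1) (U p.2)) / p.1)) := by
        refine mul_le_mul_of_nonneg_left ?_ (by positivity)
        exact Finset.sum_le_sum_of_subset_of_nonneg (Finset.filter_subset _ _)
          (fun p hp _ => hnn p hp)
    _ = 2 * (X / z) * ∑ b ∈ B, (1 / b : ℝ) * ∑ a ∈ B, om L (Nat.gcd (U a) (U b)) / a := by
        congr 1
        rw [Finset.sum_product_right]
        refine Finset.sum_congr rfl fun b _ => ?_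
        rw [Finset.mul_sum]
    _ ≤ 2 * (X / z) * ∑ b ∈ B, (1 / b : ℝ) * (Real.log N) ^ C := by
        refine mul_le_mul_of_nonneg_left ?_ (by positivity)
        refine Finset.sum_le_sum fun b hb => ?_
        exact mul_le_mul_of_nonneg_left (hNC L hLN (U b) (U_pos b).ne' (hUle b hb)) (by positivity)
    _ = 2 * (X / z) * ((∑ b ∈ B, (1 / b : ℝ)) * (Real.log N) ^ C) := by
        rw [Finset.sum_mul]
    _ ≤ 2 * (X / z) * ((1 + 2 * Real.log N) * (Real.log N) ^ C) := by
        refine mul_le_mul_of_nonneg_left ?_ (by positivity)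
        exact mul_le_mul_of_nonneg_right hharm (by positivity)
    _ ≤ X / z * (Real.log N) ^ (C + 2) := by
        have hlog0 : 0 < Real.log N := by linarith
        have e1 : (Real.log N) ^ (C + 2) = (Real.log N) ^ C * (Real.log N) ^ 2 := by
          rw [Real.rpow_add hlog0]
          congr 1
          exact_mod_cast Real.rpow_natCast (Real.log N) 2
        rw [e1]
        have e2 : 2 * (1 + 2 * Real.log N) ≤ (Real.log N) ^ 2 := by nlinarith
        have e3 : 0 ≤ X / z * (Real.log N) ^ C := by positivity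
        nlinarith

end Pool.Agent.Helper99.CV
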