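import Pool.Agent.Helper9.TN.Pieces
import Pool.Agent.Helper99.CV.Moment
import Pool.Agent.Helper99.CV.Cover
import Pool.Agent.Helper99.CV.Euler

/-!
# CV-5: concentration of the common values of `φ n = φ (n + 1)`
-/

set_option autoImplicit false

open Finset
open scoped Nat

namespace Pool.Agent.Helper99.CV

open Pool.Agent.TN

/-- the good part -/
theorem om_piece_G {σ : ℝ} (hσ0 : 0 < σ) :
    ∀ᶠ N : ℕ in Filter.atTop, ∀ L : ℕ, Real.log N ≤ L → ∀ S : Finset ℕ,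
      (∀ n ∈ S, 1 ≤ n ∧ n ≤ N ∧ ∃ a b : ℕ, a ∣ n ∧ b ∣ n + 1 ∧ Squarefree a ∧
        Squarefree b ∧ ((a * b : ℕ) : ℝ) ≤ (N : ℝ) ^ (1 + σ) ∧
        (N : ℝ) ^ (4 * σ) ≤ om L (Nat.gcd (U a) (U b))) →
      (S.card : ℝ) ≤ (N : ℝ) ^ (1 - σ / 8) := by
  obtain ⟨C, hC, h⟩ := om_good_count
  have h1 := log_pow_le C (a := σ / 2) (by positivity)
  have h2 := const_le_pow 2 hσ0
  filter_upwards [h, h1, h2, Filter.eventually_ge_atTop 1] with N h h1 h2 hN L hL S hS
  have hN1 : (1 : ℝ) ≤ N := by exact_mod_cast hN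
  have hN0 : (0 : ℝ) < N := by linarith
  have hX : (N : ℝ) + 1 ≤ (N : ℝ) ^ (1 + σ) := by
    rw [Real.rpow_add hN0, Real.rpow_one]
    nlinarith
  have hz : 0 < (N : ℝ) ^ (4 * σ) := by positivity
  refine (h L hL _ _ hX hz S hS).trans ?_
  rw [← Real.rpow_sub hN0]
  calc (N : ℝ) ^ (1 + σ - 4 * σ) * (Real.log N) ^ C
      ≤ (N : ℝ) ^ (1 + σ - 4 * σ) * (N : ℝ) ^ (σ / 2) :=
        mul_le_mul_of_nonneg_left h1 (by positivity)
    _ = (N : ℝ) ^ (1 + σ - 4 * σ + σ / 2) := (Real.rpow_add hN0 _ _).symm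
    _ ≤ (N : ℝ) ^ (1 - σ / 8) := by
        apply Real.rpow_le_rpow_of_exponent_le hN1
        linarith

theorem om_power_part {τ σ : ℝ} (hτ : 0 < τ) (hτ1 : τ ≤ 1) (hσ : σ = τ / 8000) :
    ∀ᶠ N : ℕ in Filter.atTop, ∀ L : ℕ, Real.log N ≤ L → ∀ S : Finset ℕ,
      (∀ n ∈ S, 1 ≤ n ∧ n ≤ N ∧ φ n = φ (n + 1) ∧ ¬ (om L (φ n) < (N : ℝ) ^ τ)) →
      (S.card : ℝ) ≤ 14 * (N : ℝ) ^ (1 - σ / 8) := by
  have hσ0 : 0 < σ := by rw [hσ]; positivity
  have hσ1 : σ ≤ 1 / 100 := by rw [hσ]; linarith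
  have h2 := const_le_pow 2 hσ0
  have hlim' : Filter.Tendsto (fun N : ℕ => Real.log (N : ℝ)) Filter.atTop Filter.atTop :=
    Real.tendsto_log_atTop.comp tendsto_natCast_atTop_atTop
  filter_upwards [piece_D hσ0 hσ1, piece_E hσ0 hσ1, piece_F hσ0 hσ1, om_piece_G hσ0,
    cc_facts, h2, hlim'.eventually_ge_atTop 1, Filter.eventually_ge_atTop 1]
    with N hD hE hF hG hc h2 hl hN L hL S hS
  have hL1 : 1 ≤ L := by
    have : (1 : ℝ) ≤ L := hl.trans hL
    exact_mod_cast this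
  have hN1 : (1 : ℝ) ≤ N := by exact_mod_cast hN
  have hN0 : (0 : ℝ) < N := by linarith
  obtain ⟨hc1, hc2, hc3, hc4⟩ := hc
  set w := (N : ℝ) ^ (σ / 2) with hw
  have hw1 : 1 ≤ w := Real.one_le_rpow hN1 (by positivity)
  have hX : (N : ℝ) + 1 ≤ (N : ℝ) ^ (1 + σ) := by
    rw [Real.rpow_add hN0, Real.rpow_one]
    nlinarith
  have hz0 : 0 ≤ (N : ℝ) ^ (4 * σ) := by positivity
  have hRle : w ^ 2 * ((N : ℝ) ^ (4 * σ)) ^ (42 * 42) ≤ (N : ℝ) ^ τ := by
    rw [hw, ← Real.rpow_natCast, ← Real.rpow_natCast, ← Real.rpow_mul hN0.le,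
      ← Real.rpow_mul hN0.le, ← Real.rpow_add hN0]
    apply Real.rpow_le_rpow_of_exponent_le hN1
    push_cast
    linarith
  have hB : (N : ℝ) ^ (1 - σ / 2) ≤ (N : ℝ) ^ (1 - σ / 8) :=
    Real.rpow_le_rpow_of_exponent_le hN1 (by linarith)
  have hB2 : (N : ℝ) ^ (1 - σ) ≤ (N : ℝ) ^ (1 - σ / 8) :=
    Real.rpow_le_rpow_of_exponent_le hN1 (by linarith)
  have hsq : (N : ℝ) / Real.sqrt w ≤ (N : ℝ) ^ (1 - σ / 8) := by
    have e1 : Real.sqrt w = (N : ℝ) ^ (σ / 4) := by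
      rw [hw, Real.sqrt_eq_rpow, ← Real.rpow_mul hN0.le]
      ring_nf
    rw [e1]
    nth_rewrite 1 [← Real.rpow_one (N : ℝ)]
    rw [← Real.rpow_sub hN0]
    exact Real.rpow_le_rpow_of_exponent_le hN1 (by linarith)
  have hw0 : 0 ≤ w := by linarith
  -- the cover
  have hcov : ∀ n ∈ S, (n : ℝ) ≤ (N : ℝ) ^ (1 - σ) ∨ (w < KK n ∨ (w < KK (n + 1) ∨
      ((((KK n : ℝ) ≤ w ∧ (KK (n + 1) : ℝ) ≤ w) ∧
        ∃ r r' : ℕ, r.Prime ∧ r'.Prime ∧ r ∣ n ∧ r' ∣ n + 1 ∧ (N : ℝ) ^ (1 + σ) < r * r') ∨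
      (((N : ℝ) ^ (1 - σ) < n ∧ ((KK n : ℝ) ≤ w ∧ (KK (n + 1) : ℝ) ≤ w) ∧
        (¬ ∃ r r' : ℕ, r.Prime ∧ r'.Prime ∧ r ∣ n ∧ r' ∣ n + 1 ∧ (N : ℝ) ^ (1 + σ) < r * r') ∧
        ∃ r : ℕ, r.Prime ∧ r ∣ n ∧ n ≤ cc N ^ 2 * r) ∨
      (((N : ℝ) ^ (1 - σ) < n ∧ ((KK n : ℝ) ≤ w ∧ (KK (n + 1) : ℝ) ≤ w) ∧
        (¬ ∃ r r' : ℕ, r.Prime ∧ r'.Prime ∧ r ∣ n ∧ r' ∣ n + 1 ∧ (N : ℝ) ^ (1 + σ) < r * r') ∧
        ∃ r : ℕ, r.Prime ∧ r ∣ n + 1 ∧ n + 1 ≤ cc N ^ 2 * r) ∨
      (∃ a b : ℕ, a ∣ n ∧ b ∣ n + 1 ∧ Squarefree a ∧ Squarefree b ∧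
        ((a * b : ℕ) : ℝ) ≤ (N : ℝ) ^ (1 + σ) ∧
        (N : ℝ) ^ (4 * σ) ≤ om L (Nat.gcd (U a) (U b)))))))) := by
    intro n hn
    obtain ⟨hn1, hnN, hφ, hexc⟩ := hS n hn
    by_cases c1 : (n : ℝ) ≤ (N : ℝ) ^ (1 - σ)
    · exact Or.inl c1
    push Not at c1
    by_cases c2 : w < KK n
    · exact Or.inr (Or.inl c2)
    push Not at c2
    by_cases c3 : w < KK (n + 1)
    · exact Or.inr (Or.inr (Or.inl c3))
    push Not at c3
    by_cases c4 : ∃ r r' : ℕ, r.Prime ∧ r'.Prime ∧ r ∣ n ∧ r' ∣ n + 1 ∧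
        (N : ℝ) ^ (1 + σ) < r * r'
    · exact Or.inr (Or.inr (Or.inr (Or.inl ⟨⟨c2, c3⟩, c4⟩)))
    rcases om_cover hL1 hn1 hnN hc1 (by norm_num : 1 ≤ 42) hc2 hc3 hX hw0 hz0 hRle hφ with
      h | h | h | h | h | h | h
    · exact absurd h (not_lt.2 c2)
    · exact absurd h (not_lt.2 c3)
    · exact absurd h hexc
    · exact absurd h c4
    · exact Or.inr (Or.inr (Or.inr (Or.inr (Or.inl ⟨c1, ⟨c2, c3⟩, c4, h⟩))))
    · exact Or.inr (Or.inr (Or.inr (Or.inr (Or.inr (Or.inl ⟨c1, ⟨c2, c3⟩, c4, h⟩)))))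
    · exact Or.inr (Or.inr (Or.inr (Or.inr (Or.inr (Or.inr h)))))
  have hmain := bound_or (B1 := (N : ℝ) ^ (1 - σ / 8)) (B2 := 13 * (N : ℝ) ^ (1 - σ / 8)) hcov
    (fun T hT hP => (small_count (by positivity) T fun n hn =>
      ⟨(hS n (hT hn)).1, hP n hn⟩).trans hB2)
    (fun T hT hP => by
      have := bound_or (B1 := 2 * (N : ℝ) ^ (1 - σ / 8)) (B2 := 11 * (N : ℝ) ^ (1 - σ / 8)) hP
        (fun T' hT' hP' => by
          have h3 := squareful_count N w hw1 T' fun n hn =>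
            ⟨(hS n (hT (hT' hn))).1, (hS n (hT (hT' hn))).2.1, hP' n hn⟩
          refine h3.trans ?_
          rw [mul_div_assoc]
          linarith)
        (fun T' hT' hP' => by
          have := bound_or (B1 := 4 * (N : ℝ) ^ (1 - σ / 8)) (B2 := 7 * (N : ℝ) ^ (1 - σ / 8)) hP'
            (fun T2 hT2 hP2 => by
              have h3 := squareful_count (N + 1) w hw1 (T2.image Nat.succ) (by
                intro n hn
                obtain ⟨m, hm, rfl⟩ := Finset.mem_image.1 hn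
                have := (hS m (hT (hT' (hT2 hm)))).2.1
                exact ⟨Nat.succ_pos m, Nat.succ_le_succ this, hP2 m hm⟩)
              rw [Finset.card_image_of_injective _ Nat.succ_injective] at h3
              refine h3.trans ?_
              push_cast
              rw [mul_div_assoc]
              have h4 : ((N : ℝ) + 1) / Real.sqrt w ≤ 2 * (N / Real.sqrt w) := by
                rw [← mul_div_assoc]
                gcongr
                linarith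
              linarith)
            (fun T2 hT2 hP2 => by
              have := bound_or (B1 := (N : ℝ) ^ (1 - σ / 8)) (B2 := 6 * (N : ℝ) ^ (1 - σ / 8)) hP2
                (fun T3 hT3 hP3 => (hD T3 fun n hn => by
                  have h4 := hS n (hT (hT' (hT2 (hT3 hn))))
                  exact ⟨h4.1, h4.2.1, h4.2.2.1, (hP3 n hn).1.1, (hP3 n hn).1.2,
                    (hP3 n hn).2⟩).trans hB)
                (fun T3 hT3 hP3 => by
                  have := bound_or (B1 := (N : ℝ) ^ (1 - σ / 8))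
                    (B2 := 5 * (N : ℝ) ^ (1 - σ / 8)) hP3
                    (fun T4 hT4 hP4 => (hE T4 fun n hn => by
                      have h4 := hS n (hT (hT' (hT2 (hT3 (hT4 hn)))))
                      obtain ⟨q1, q2, q3, q4⟩ := hP4 n hn
                      exact ⟨h4.1, h4.2.1, h4.2.2.1, q1, q2.1, q2.2, q3, q4⟩).trans hB)
                    (fun T4 hT4 hP4 => by
                      have := bound_or (B1 := (N : ℝ) ^ (1 - σ / 8))
                        (B2 := (N : ℝ) ^ (1 - σ / 8)) hP4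
                        (fun T5 hT5 hP5 => (hF T5 fun n hn => by
                          have h4 := hS n (hT (hT' (hT2 (hT3 (hT4 (hT5 hn))))))
                          obtain ⟨q1, q2, q3, q4⟩ := hP5 n hn
                          exact ⟨h4.1, h4.2.1, h4.2.2.1, q1, q2.1, q2.2, q3, q4⟩).trans hB)
                        (fun T5 hT5 hP5 => hG L hL T5 fun n hn => by
                          have h4 := hS n (hT (hT' (hT2 (hT3 (hT4 (hT5 hn))))))
                          exact ⟨h4.1, h4.2.1, hP5 n hn⟩)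
                      have hpos : 0 ≤ (N : ℝ) ^ (1 - σ / 8) := by positivity
                      linarith)
                  linarith)
              linarith)
          linarith)
      linarith)
  linarith

/-- The integers of small weight. -/
noncomputable def VS (L N : ℕ) (T : ℝ) : Finset ℕ :=
  open Classical in (Icc 1 N).filter fun v => om L v < T

theorem card_VS_le {L N : ℕ} (hL : 1 ≤ L) {T B : ℝ} (hT : 0 ≤ T)
    (hB : ∑ m ∈ Icc 1 N, 1 / om L m ≤ B) : ((VS L N T).card : ℝ) ≤ T * B := by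
  classical
  have hpos : ∀ m ∈ Icc 1 N, 0 < om L m := fun m hm => om_pos hL (by
    rw [Finset.mem_Icc] at hm
    omega)
  calc ((VS L N T).card : ℝ) = ∑ m ∈ VS L N T, 1 := by
        rw [Finset.sum_const, nsmul_eq_mul, mul_one]
    _ ≤ ∑ m ∈ VS L N T, T * (1 / om L m) := by
        refine Finset.sum_le_sum fun m hm => ?_
        unfold VS at hm
        rw [Finset.mem_filter] at hm
        have h1 := hpos m hm.1
        rw [mul_one_div, one_le_div h1]
        exact hm.2.le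
    _ = T * ∑ m ∈ VS L N T, 1 / om L m := (Finset.mul_sum _ _ _).symm
    _ ≤ T * ∑ m ∈ Icc 1 N, 1 / om L m := by
        refine mul_le_mul_of_nonneg_left ?_ hT
        refine Finset.sum_le_sum_of_subset_of_nonneg ?_ fun m hm _ => ?_
        · unfold VS
          exact Finset.filter_subset _ _
        · exact (one_div_pos.2 (hpos m hm)).le
    _ ≤ T * B := mul_le_mul_of_nonneg_left hB hT

/-- The number of multiples. -/
theorem card_multiples_le {N d : ℕ} (hN : 1 ≤ N) (hd : 1 ≤ d) (ε : ℝ) (hdε : (N : ℝ) ^ ε < d) :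
    (((Icc 1 N).filter fun n => d ∣ n ∨ d ∣ n + 1).card : ℝ) ≤ 4 * (N : ℝ) ^ (1 - ε) := by
  classical
  have hN1 : (1 : ℝ) ≤ N := by exact_mod_cast hN
  have hN0 : (0 : ℝ) < N := by linarith
  have hd0 : (0 : ℝ) < d := by exact_mod_cast hd
  have hcard : ∀ M : ℕ, ((((Icc 1 M).filter fun n => d ∣ n).card : ℕ) : ℝ) ≤ (M : ℝ) / d := by
    intro M
    have h1 : ((Icc 1 M).filter fun n => d ∣ n).card = M / d := by
      rw [← Nat.Ioc_filter_dvd_card_eq_div]
      rfl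
    rw [h1]
    exact Nat.cast_div_le
  have hsub : ((Icc 1 N).filter fun n => d ∣ n ∨ d ∣ n + 1).card ≤
      ((Icc 1 N).filter fun n => d ∣ n).card + ((Icc 1 (N + 1)).filter fun n => d ∣ n).card := by
    have h1 : (Icc 1 N).filter (fun n => d ∣ n ∨ d ∣ n + 1) ⊆
        (Icc 1 N).filter (fun n => d ∣ n) ∪ (Icc 1 N).filter (fun n => d ∣ n + 1) := by
      intro n hn
      rw [Finset.mem_filter] at hn
      rw [Finset.mem_union, Finset.mem_filter, Finset.mem_filter]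
      rcases hn.2 with h | h
      · exact Or.inl ⟨hn.1, h⟩
      · exact Or.inr ⟨hn.1, h⟩
    have h2 : ((Icc 1 N).filter (fun n => d ∣ n + 1)).card ≤
        ((Icc 1 (N + 1)).filter fun n => d ∣ n).card := by
      refine Finset.card_le_card_of_injOn (fun n => n + 1) ?_ ?_
      · intro n hn
        have hn' := Finset.mem_filter.1 (Finset.mem_coe.1 hn)
        rw [Finset.mem_Icc] at hn'
        refine Finset.mem_coe.2 (Finset.mem_filter.2 ⟨Finset.mem_Icc.2 ⟨?_, ?_⟩, hn'.2⟩)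
        · show 1 ≤ n + 1
          omega
        · show n + 1 ≤ N + 1
          omega
      · intro a _ b _ h
        exact Nat.succ_injective h
    exact (Finset.card_le_card h1).trans ((Finset.card_union_le _ _).trans (by omega))
  have h3 : (N : ℝ) / d + ((N + 1 : ℕ) : ℝ) / d ≤ 4 * (N : ℝ) ^ (1 - ε) := by
    rw [Real.rpow_sub hN0, Real.rpow_one]
    have hNε : 0 < (N : ℝ) ^ ε := by positivity
    have h4 : (N : ℝ) / d ≤ N / (N : ℝ) ^ ε := div_le_div_of_nonneg_left hN0.le hNε hdε.le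
    have h5 : ((N + 1 : ℕ) : ℝ) / d ≤ 2 * (N / d) := by
      rw [← mul_div_assoc]
      refine div_le_div_of_nonneg_right ?_ hd0.le
      push_cast
      linarith
    have h6 : 0 ≤ (N : ℝ) / (N : ℝ) ^ ε := by positivity
    linarith
  calc (((Icc 1 N).filter fun n => d ∣ n ∨ d ∣ n + 1).card : ℝ)
      ≤ (((Icc 1 N).filter fun n => d ∣ n).card : ℝ) +
        (((Icc 1 (N + 1)).filter fun n => d ∣ n).card : ℝ) := by exact_mod_cast hsub
    _ ≤ (N : ℝ) / d + ((N + 1 : ℕ) : ℝ) / d := add_le_add (hcard N) (hcard (N + 1))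
    _ ≤ _ := h3

/-- The main theorem. -/
theorem main (ε : ℝ) (hε : 0 < ε) (hε1 : ε ≤ 1) : ∀ᶠ N : ℕ in Filter.atTop,
    ∃ V : Finset ℕ, (V.card : ℝ) ≤ (N : ℝ) ^ ε ∧ ∀ S : Finset ℕ,
      (∀ n ∈ S, 1 ≤ n ∧ n ≤ N ∧ φ n = φ (n + 1) ∧
        ¬ (φ n ∈ V ∧ ∀ p : ℕ, p.Prime → p ∣ n * (n + 1) → (p : ℝ) ≤ (N : ℝ) ^ ε)) →
      (S.card : ℝ) ≤ (N : ℝ) ^ (1 - ε / 512000) := by
  classical
  obtain ⟨τ, hτd⟩ : ∃ τ, τ = ε / 4 := ⟨_, rfl⟩
  have hτ : 0 < τ := by rw [hτd]; positivity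
  have hτ1 : τ ≤ 1 := by rw [hτd]; linarith
  obtain ⟨σ, hσ⟩ : ∃ σ, σ = τ / 8000 := ⟨_, rfl⟩
  have hσ0 : 0 < σ := by rw [hσ]; positivity
  have hlim' : Filter.Tendsto (fun N : ℕ => Real.log (N : ℝ)) Filter.atTop Filter.atTop :=
    Real.tendsto_log_atTop.comp tendsto_natCast_atTop_atTop
  filter_upwards [om_power_part hτ hτ1 hσ, sum_inv_om (η := ε / 4) (by positivity),
    const_le_pow 18 (a := σ / 16) (by positivity), hlim'.eventually_ge_atTop 1,
    Filter.eventually_ge_atTop 1] with N hP hE hc hl hN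
  have hN1 : (1 : ℝ) ≤ N := by exact_mod_cast hN
  have hN0 : (0 : ℝ) < N := by linarith
  obtain ⟨L, hLd⟩ : ∃ L, L = ⌈Real.log N⌉₊ := ⟨_, rfl⟩
  have hL1 : Real.log N ≤ L := by rw [hLd]; exact Nat.le_ceil _
  have hL2 : (L : ℝ) ≤ 2 * Real.log N := by
    have := Nat.ceil_lt_add_one (a := Real.log N) (by linarith)
    rw [hLd]
    linarith
  have hL : 1 ≤ L := by
    have : (1 : ℝ) ≤ L := hl.trans hL1
    exact_mod_cast this
  have hV : ((VS L N ((N : ℝ) ^ τ)).card : ℝ) ≤ (N : ℝ) ^ (ε / 2) := by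
    refine (card_VS_le hL (by positivity) (hE L hL1 hL2)).trans (le_of_eq ?_)
    rw [← Real.rpow_add hN0, hτd]
    congr 1
    ring
  refine ⟨VS L N ((N : ℝ) ^ τ), hV.trans (Real.rpow_le_rpow_of_exponent_le hN1 (by linarith)), ?_⟩
  intro S hS
  have hb := bound_or (S := S) (P := fun n => ¬ (om L (φ n) < (N : ℝ) ^ τ))
    (Q := fun n => om L (φ n) < (N : ℝ) ^ τ) (B1 := 14 * (N : ℝ) ^ (1 - σ / 8))
    (B2 := 4 * (N : ℝ) ^ (1 - ε / 2)) (fun n _ => (em _).symm)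
    (fun T hT hPT => hP L hL1 T fun n hn => by
      have h1 := hS n (hT hn)
      exact ⟨h1.1, h1.2.1, h1.2.2.1, hPT n hn⟩)
    (fun T hT hPT => by
      have hsub : T ⊆ ((VS L N ((N : ℝ) ^ τ)).filter fun m => (N : ℝ) ^ ε < ((m + 1 : ℕ) : ℝ)).biUnion
          fun m => (Icc 1 N).filter fun n => m + 1 ∣ n ∨ m + 1 ∣ n + 1 := by
        intro n hn
        obtain ⟨h1, h2, h3, h4⟩ := hS n (hT hn)
        have h5 := hPT n hn
        have hφ0 : 1 ≤ φ n := Nat.totient_pos.2 (by omega)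
        have hφV : φ n ∈ VS L N ((N : ℝ) ^ τ) := by
          unfold VS
          rw [Finset.mem_filter, Finset.mem_Icc]
          exact ⟨⟨hφ0, (Nat.totient_le n).trans h2⟩, h5⟩
        have h6 : ¬ ∀ p : ℕ, p.Prime → p ∣ n * (n + 1) → (p : ℝ) ≤ (N : ℝ) ^ ε := fun h =>
          h4 ⟨hφV, h⟩
        push Not at h6
        obtain ⟨p, hp, hpn, hpN⟩ := h6
        have hp2 := hp.two_le
        have hpe : p - 1 + 1 = p := by omega
        rw [Finset.mem_biUnion]
        have hor := hp.dvd_mul.1 hpn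
        refine ⟨p - 1, ?_, ?_⟩
        · rw [Finset.mem_filter, hpe]
          refine ⟨?_, hpN⟩
          unfold VS
          rw [Finset.mem_filter, Finset.mem_Icc]
          have hd : p - 1 ∣ φ n := by
            rcases hor with h | h
            · rw [← Nat.totient_prime hp]
              exact Nat.totient_dvd_of_dvd h
            · rw [← Nat.totient_prime hp, h3]
              exact Nat.totient_dvd_of_dvd h
          refine ⟨⟨by omega, ?_⟩, (om_mono hL hd (by omega)).trans_lt h5⟩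
          exact ((Nat.le_of_dvd hφ0 hd).trans (Nat.totient_le n)).trans h2
        · rw [Finset.mem_filter, Finset.mem_Icc, hpe]
          exact ⟨⟨h1, h2⟩, hor⟩
      have h7 : (T.card : ℝ) ≤ ∑ m ∈ (VS L N ((N : ℝ) ^ τ)).filter
          (fun m => (N : ℝ) ^ ε < ((m + 1 : ℕ) : ℝ)),
          (((Icc 1 N).filter fun n => m + 1 ∣ n ∨ m + 1 ∣ n + 1).card : ℝ) := by
        exact_mod_cast (Finset.card_le_card hsub).trans Finset.card_biUnion_le
      refine h7.trans ?_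
      calc ∑ m ∈ (VS L N ((N : ℝ) ^ τ)).filter (fun m => (N : ℝ) ^ ε < ((m + 1 : ℕ) : ℝ)),
          (((Icc 1 N).filter fun n => m + 1 ∣ n ∨ m + 1 ∣ n + 1).card : ℝ)
          ≤ ∑ _m ∈ (VS L N ((N : ℝ) ^ τ)).filter (fun m => (N : ℝ) ^ ε < ((m + 1 : ℕ) : ℝ)),
            4 * (N : ℝ) ^ (1 - ε) := by
            refine Finset.sum_le_sum fun m hm => ?_
            exact card_multiples_le hN (by omega) ε (Finset.mem_filter.1 hm).2
        _ = (((VS L N ((N : ℝ) ^ τ)).filter (fun m => (N : ℝ) ^ ε < ((m + 1 : ℕ) : ℝ))).card : ℝ) *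
            (4 * (N : ℝ) ^ (1 - ε)) := by rw [Finset.sum_const, nsmul_eq_mul]
        _ ≤ (N : ℝ) ^ (ε / 2) * (4 * (N : ℝ) ^ (1 - ε)) := by
            refine mul_le_mul_of_nonneg_right ?_ (by positivity)
            refine le_trans ?_ hV
            exact_mod_cast Finset.card_filter_le _ _
        _ = 4 * (N : ℝ) ^ (1 - ε / 2) := by
            have : (N : ℝ) ^ (1 - ε / 2) = (N : ℝ) ^ (ε / 2) * (N : ℝ) ^ (1 - ε) := by
              rw [← Real.rpow_add hN0]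
              congr 1
              ring
            rw [this]
            ring)
  refine hb.trans ?_
  have hσε : σ = ε / 32000 := by rw [hσ, hτd]; ring
  have h8 : (N : ℝ) ^ (1 - ε / 2) ≤ (N : ℝ) ^ (1 - σ / 8) :=
    Real.rpow_le_rpow_of_exponent_le hN1 (by rw [hσε]; linarith)
  calc 14 * (N : ℝ) ^ (1 - σ / 8) + 4 * (N : ℝ) ^ (1 - ε / 2)
      ≤ 18 * (N : ℝ) ^ (1 - σ / 8) := by linarith
    _ ≤ (N : ℝ) ^ (σ / 16) * (N : ℝ) ^ (1 - σ / 8) :=
        mul_le_mul_of_nonneg_right hc (by positivity)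
    _ = (N : ℝ) ^ (1 - ε / 512000) := by
        rw [← Real.rpow_add hN0, hσε]
        congr 1
        ring

end Pool.Agent.Helper99.CV
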